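import Pool.Agent.Helper96.CT.Stmts2

set_option autoImplicit false

namespace Pool.Agent.Helper9.CT

open SimpleGraph Pool.Agent.Helper96.CT

theorem st_EM (h1 : ST_PQ) (h2 : ST_GR) : ST_EM := by
  classical
  intro W V _ T F H hT hstar hMD x hx y hy z hz hxy hnxy hxz hzy
  obtain ⟨p, p', q, hpp', hp'q, hpq, hleaf, w0, hw0, hw0'⟩ := h1 W T hT hstar
  -- the leaves at `p` and the other vertices
  set L : Finset W := Finset.univ.filter (fun w => T.Adj p w ∧ w ≠ p') with hL
  set A : Finset W := Finset.univ.filter (fun w => ¬ (T.Adj p w ∧ w ≠ p')) with hA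
  have mL : ∀ w, w ∈ L ↔ T.Adj p w ∧ w ≠ p' := fun w => by simp [hL]
  have mA : ∀ w, w ∈ A ↔ ¬ (T.Adj p w ∧ w ≠ p') := fun w => by
    rw [hA, Finset.mem_filter]; simp
  have hcard : L.card + A.card = Fintype.card W := by
    rw [hL, hA, Finset.card_filter_add_card_filter_not, Finset.card_univ]
  have hLpos : 1 ≤ L.card := Finset.card_pos.2 ⟨w0, (mL w0).2 ⟨hw0, hw0'⟩⟩
  have hpA : p ∈ A := (mA p).2 (fun h => T.loopless.irrefl p h.1)
  have hp'A : p' ∈ A := (mA p').2 (fun h => h.2 rfl)
  have hqA : q ∈ A := (mA q).2 (fun h => by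
    have := hleaf q h.1 h.2 p' hp'q.symm
    exact T.loopless.irrefl p (by rw [this] at hpp'; exact hpp'))
  have hAcard : A.card ≤ (Fintype.card W - 2) + 1 := by omega
  set S : Finset W := {p, p', q} with hS
  have hSA : S ⊆ A := by
    intro w hw
    simp only [hS, Finset.mem_insert, Finset.mem_singleton] at hw
    rcases hw with rfl | rfl | rfl
    · exact hpA
    · exact hp'A
    · exact hqA
  have hpS : p ∈ S := by simp [hS]
  have hp'S : p' ∈ S := by simp [hS]
  have hqS : q ∈ S := by simp [hS]
  have hp'p : p' ≠ p := hpp'.ne'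
  have hp'q' : p' ≠ q := hp'q.ne
  -- connectedness
  have cS : (T.induce (S : Set W)).Connected := by
    rw [connected_iff_exists_forall_reachable]
    refine ⟨⟨p', hp'S⟩, ?_⟩
    rintro ⟨w, hw⟩
    have hw' : w ∈ S := hw
    simp only [hS, Finset.mem_insert, Finset.mem_singleton] at hw'
    rcases hw' with rfl | rfl | rfl
    · exact Adj.reachable (show T.Adj p' w from hpp'.symm)
    · exact Reachable.refl _
    · exact Adj.reachable (show T.Adj p' w from hp'q)
  have key : ∀ (u v : W) (_ : T.Walk u v), v = p → ∀ hu : u ∈ A,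
      (T.induce (A : Set W)).Reachable ⟨u, hu⟩ ⟨p, hpA⟩ := by
    intro u v wk
    induction wk with
    | nil =>
      intro h hu
      subst h
      exact Reachable.refl _
    | @cons a b c hab wk ih =>
      intro h hu
      by_cases hb : b ∈ A
      · have h3 : (T.induce (A : Set W)).Adj ⟨a, hu⟩ ⟨b, hb⟩ := hab
        exact h3.reachable.trans (ih h hb)
      · have hb' : T.Adj p b ∧ b ≠ p' := by
          by_contra h4
          exact hb ((mA b).2 h4)
        have := hleaf b hb'.1 hb'.2 a hab.symm
        subst this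
        exact Reachable.refl _
  have cA : (T.induce (A : Set W)).Connected := by
    rw [connected_iff_exists_forall_reachable]
    refine ⟨⟨p, hpA⟩, ?_⟩
    rintro ⟨w, hw⟩
    obtain ⟨wk⟩ := hT.connected.preconnected w p
    exact (key w p wk rfl hw).symm
  -- the embedding of the three vertices
  set φ : W → V := fun w => if w = p then x else if w = p' then z else y with hφ
  have φp : φ p = x := by simp [hφ]
  have φp' : φ p' = z := by simp [hφ, hp'p]
  have φq : φ q = y := by simp [hφ, hpq.symm, hp'q'.symm]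
  have memS : ∀ w ∈ S, w = p ∨ w = p' ∨ w = q := by
    intro w hw
    simpa [hS] using hw
  have hxz' : x ≠ z := hxz.ne
  have hzy' : z ≠ y := hzy.ne
  have npq : ¬ T.Adj p q := by
    intro h
    exact (mA q).1 hqA ⟨h, hp'q'.symm⟩
  obtain ⟨ψ, ψS, ψH, ψi, ψa⟩ := h2 W V T F H (Fintype.card W - 2) hT.isAcyclic hMD S A φ hSA
    hAcard cS cA
    (by
      intro w hw
      rcases memS w hw with rfl | rfl | rfl
      · rw [φp]; exact hx
      · rw [φp']; exact hz
      · rw [φq]; exact hy)
    (by
      intro u hu w hw h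
      rcases memS u hu with rfl | rfl | rfl <;> rcases memS w hw with rfl | rfl | rfl
      · rfl
      · rw [φp, φp'] at h; exact absurd h hxz'
      · rw [φp, φq] at h; exact absurd h hxy
      · rw [φp, φp'] at h; exact absurd h.symm hxz'
      · rfl
      · rw [φp', φq] at h; exact absurd h hzy'
      · rw [φp, φq] at h; exact absurd h.symm hxy
      · rw [φp', φq] at h; exact absurd h.symm hzy'
      · rfl)
    (by
      intro u hu w hw h
      rcases memS u hu with rfl | rfl | rfl <;> rcases memS w hw with rfl | rfl | rfl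
      · exact absurd h (T.loopless.irrefl _)
      · rw [φp, φp']; exact hxz
      · exact absurd h npq
      · rw [φp, φp']; exact hxz.symm
      · exact absurd h (T.loopless.irrefl _)
      · rw [φp', φq]; exact hzy
      · exact absurd h.symm npq
      · rw [φp', φq]; exact hzy.symm
      · exact absurd h (T.loopless.irrefl _))
  have ψp : ψ p = x := by rw [ψS p hpS, φp]
  have ψq : ψ q = y := by rw [ψS q hqS, φq]
  -- free neighbours
  obtain ⟨I, hIH, hIadj, hIcard⟩ := hMD x hx
  have hAimg : (A.image ψ).card = A.card :=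
    Finset.card_image_of_injOn (fun u hu w hw h => ψi u hu w hw h)
  have hx' : x ∈ A.image ψ := Finset.mem_image.2 ⟨p, hpA, ψp⟩
  have hy' : y ∈ A.image ψ := Finset.mem_image.2 ⟨q, hqA, ψq⟩
  have hinter : I ∩ A.image ψ ⊆ ((A.image ψ).erase x).erase y := by
    intro v hv
    rw [Finset.mem_inter] at hv
    rw [Finset.mem_erase, Finset.mem_erase]
    refine ⟨?_, ?_, hv.2⟩
    · rintro rfl
      exact hnxy (hIadj _ hv.1)
    · rintro rfl
      exact F.loopless.irrefl _ (hIadj _ hv.1)
  have hic : (I ∩ A.image ψ).card + 2 ≤ A.card := by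
    have e1 := Finset.card_le_card hinter
    have e2 : y ∈ (A.image ψ).erase x := Finset.mem_erase.2 ⟨hxy.symm, hy'⟩
    have e3 := Finset.card_erase_add_one e2
    have e4 := Finset.card_erase_add_one hx'
    omega
  have hfree : L.card ≤ (I \ A.image ψ).card := by
    have e1 := Finset.card_sdiff_add_card_inter I (A.image ψ)
    omega
  obtain ⟨g⟩ : Nonempty ({w // w ∈ L} ↪ {v // v ∈ I \ A.image ψ}) := by
    apply Function.Embedding.nonempty_of_card_le
    simpa using hfree
  set f : W → V := fun w => if h : w ∈ L then (g ⟨w, h⟩ : V) else ψ w with hf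
  have hnL : ∀ w, w ∉ L → w ∈ A := by
    intro w hw
    exact (mA w).2 (fun h => hw ((mL w).2 h))
  have fL : ∀ w (h : w ∈ L), f w = (g ⟨w, h⟩ : V) := fun w h => by simp only [hf]; rw [dif_pos h]
  have fA : ∀ w, w ∉ L → f w = ψ w := fun w h => by simp only [hf]; rw [dif_neg h]
  have gI : ∀ w (h : w ∈ L), (g ⟨w, h⟩ : V) ∈ I ∧ (g ⟨w, h⟩ : V) ∉ A.image ψ := fun w h =>
    Finset.mem_sdiff.1 (g ⟨w, h⟩).2
  have hpL : p ∉ L := fun h => T.loopless.irrefl p ((mL p).1 h).1
  have hadj : ∀ u w, T.Adj u w → F.Adj (f u) (f w) := by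
    intro u w huw
    by_cases hu : u ∈ L
    · have hu' := (mL u).1 hu
      have := hleaf u hu'.1 hu'.2 w huw
      subst this
      rw [fL u hu, fA w hpL, ψp]
      exact (hIadj _ (gI u hu).1).symm
    · by_cases hw : w ∈ L
      · have hw' := (mL w).1 hw
        have := hleaf w hw'.1 hw'.2 u huw.symm
        subst this
        rw [fL w hw, fA u hpL, ψp]
        exact hIadj _ (gI w hw).1
      · rw [fA u hu, fA w hw]
        exact ψa u (hnL u hu) w (hnL w hw) huw
  have hinj : Function.Injective f := by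
    intro u w huw
    by_cases hu : u ∈ L
    · by_cases hw : w ∈ L
      · rw [fL u hu, fL w hw] at huw
        have := g.injective (Subtype.ext huw)
        exact congrArg Subtype.val this
      · rw [fL u hu, fA w hw] at huw
        exact absurd (Finset.mem_image.2 ⟨w, hnL w hw, huw.symm⟩) (gI u hu).2
    · by_cases hw : w ∈ L
      · rw [fL w hw, fA u hu] at huw
        exact absurd (Finset.mem_image.2 ⟨u, hnL u hu, huw⟩) (gI w hw).2
      · rw [fA u hu, fA w hw] at huw
        exact ψi u (hnL u hu) w (hnL w hw) huw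
  exact ⟨⟨⟨f, fun {u w} h => hadj u w h⟩, hinj⟩⟩

end Pool.Agent.Helper9.CT
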